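import Pool.Agent.H6.CI.GPT1

/-!
# Substitutions of rational functions, and extension of embeddings
-/

set_option autoImplicit false

namespace Pool.Agent.H6.CI

open MvPolynomial

section Shift

variable (F : Type) [Field F] (V : Type)

section Dec

variable [DecidableEq V]

/-- the substitution `X u0 ↦ X u0 + 1` -/
noncomputable def sh (u0 : V) (t : F) : MvPolynomial V F →ₐ[F] MvPolynomial V F :=
  aeval fun u => X u + if u = u0 then C t else 0

theorem sh_X (u0 u : V) (t : F) : sh F V u0 t (X u) = X u + if u = u0 then C t else 0 := by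
  unfold sh
  rw [aeval_X]

theorem sh_sh (u0 : V) (t : F) : (sh F V u0 (-t)).comp (sh F V u0 t) = AlgHom.id F _ := by
  apply MvPolynomial.algHom_ext
  intro u
  rw [AlgHom.comp_apply, sh_X, map_add, sh_X]
  by_cases h : u = u0
  · rw [if_pos h, if_pos h]
    have : (sh F V u0 (-t)) (C t) = C t := by
      rw [← algebraMap_eq, AlgHom.commutes]
    rw [this]
    simp
  · rw [if_neg h, if_neg h]
    simp

theorem sh_injective (u0 : V) (t : F) : Function.Injective (sh F V u0 t) := by
  have h := sh_sh F V u0 t
  intro a b hab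
  have h1 : ((sh F V u0 (-t)).comp (sh F V u0 t)) a = ((sh F V u0 (-t)).comp (sh F V u0 t)) b := by
    rw [AlgHom.comp_apply, AlgHom.comp_apply, hab]
  rwa [h] at h1

end Dec

/-- the field of rational functions -/
abbrev RF : Type := FractionRing (MvPolynomial V F)

/-- the variables -/
noncomputable def vr (u : V) : RF F V := algebraMap (MvPolynomial V F) (RF F V) (X u)

theorem vr_indep : AlgebraicIndependent F (vr F V) := by
  have h := MvPolynomial.algebraicIndependent_X V F
  exact h.map' (f := IsScalarTower.toAlgHom F (MvPolynomial V F) (RF F V))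
    (IsFractionRing.injective (MvPolynomial V F) (RF F V))

theorem vr_cl (w : RF F V) :
    w ∈ (AlgebraicIndependent.matroid F (RF F V)).closure (Set.range (vr F V)) := by
  rw [mem_cl]
  have hmem : ∀ p : MvPolynomial V F, algebraMap (MvPolynomial V F) (RF F V) p ∈
      Algebra.adjoin F (Set.range (vr F V)) := by
    intro p
    have h1 : algebraMap (MvPolynomial V F) (RF F V) p = aeval (vr F V) p := by
      have h2 : (IsScalarTower.toAlgHom F (MvPolynomial V F) (RF F V)) = aeval (vr F V) := by
        apply MvPolynomial.algHom_ext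
        intro u
        rw [aeval_X]
        rfl
      rw [← h2]
      rfl
    rw [h1, Algebra.adjoin_range_eq_range_aeval]
    exact ⟨p, rfl⟩
  obtain ⟨p, q, hq, rfl⟩ := IsFractionRing.div_surjective (A := MvPolynomial V F) w
  rw [div_eq_mul_inv]
  exact (isAlgebraic_algebraMap
    (⟨_, hmem p⟩ : Algebra.adjoin F (Set.range (vr F V)))).mul
    (isAlgebraic_algebraMap (⟨_, hmem q⟩ : Algebra.adjoin F (Set.range (vr F V)))).inv

theorem exists_shift [DecidableEq V] (u0 : V) : ∃ τ : RF F V →ₐ[F] RF F V,
    ∀ u, τ (vr F V u) = vr F V u + if u = u0 then 1 else 0 := by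
  have hinj : Function.Injective
      ((IsScalarTower.toAlgHom F (MvPolynomial V F) (RF F V)).comp (sh F V u0 1)) :=
    (IsFractionRing.injective (MvPolynomial V F) (RF F V)).comp (sh_injective F V u0 1)
  refine ⟨IsFractionRing.liftAlgHom hinj, fun u => ?_⟩
  rw [IsFractionRing.liftAlgHom_apply, vr, IsFractionRing.lift_algebraMap]
  change algebraMap (MvPolynomial V F) (RF F V) (sh F V u0 1 (X u)) = _
  rw [sh_X, map_add]
  by_cases h : u = u0
  · rw [if_pos h, if_pos h]
    simp
  · rw [if_neg h, if_neg h]
    simp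

end Shift

/-- extension of an embedding: a transcendence basis `b` of `L` is mapped to an independent family
`b'` in an algebraically closed field -/
theorem exists_lift (F L Ω A : Type) [Field F] [Field L] [Field Ω] [IsAlgClosed Ω] [Algebra F L]
    [Algebra F Ω] (b : A → L) (b' : A → Ω) (hb : AlgebraicIndependent F b)
    (hb' : AlgebraicIndependent F b')
    (hcl : ∀ w : L, w ∈ (AlgebraicIndependent.matroid F L).closure (Set.range b)) :
    ∃ φ : L →+* Ω, ∀ a, φ (b a) = b' a := by
  let _ : Algebra (MvPolynomial A F) L := (aeval b : MvPolynomial A F →ₐ[F] L).toRingHom.toAlgebra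
  let _ : Algebra (MvPolynomial A F) Ω := (aeval b' : MvPolynomial A F →ₐ[F] Ω).toRingHom.toAlgebra
  have : Module.IsTorsionFree (MvPolynomial A F) L :=
    Module.isTorsionFree_iff_algebraMap_injective.2 hb
  have : Module.IsTorsionFree (MvPolynomial A F) Ω :=
    Module.isTorsionFree_iff_algebraMap_injective.2 hb'
  have : Algebra.IsAlgebraic (MvPolynomial A F) L := by
    constructor
    intro w
    have h1 := hcl w
    rw [mem_cl, Algebra.adjoin_range_eq_range_aeval] at h1
    refine IsAlgebraic.of_ringHom_of_comp_eq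
      ((aeval b : MvPolynomial A F →ₐ[F] L).rangeRestrict :
        MvPolynomial A F →+* (aeval b : MvPolynomial A F →ₐ[F] L).range)
      (RingHom.id L) h1 ?_ Function.injective_id ?_
    · exact AlgHom.rangeRestrict_surjective _
    · rfl
  let φ : L →ₐ[MvPolynomial A F] Ω := IsAlgClosed.lift
  refine ⟨φ.toRingHom, fun a => ?_⟩
  have h1 : φ (algebraMap (MvPolynomial A F) L (X a)) = algebraMap (MvPolynomial A F) Ω (X a) :=
    φ.commutes _
  have h2 : algebraMap (MvPolynomial A F) L (X a) = b a := aeval_X b a
  have h3 : algebraMap (MvPolynomial A F) Ω (X a) = b' a := aeval_X b' a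
  rw [h2, h3] at h1
  exact h1

theorem exists_lift2 (F k L Ω A B : Type) [Field F] [Field k] [Field L] [Field Ω] [IsAlgClosed Ω]
    [Algebra F L] [Algebra F k] [Algebra k Ω] (c : A → k) (XB : B → Ω) (bs : B ⊕ A → L)
    (hc : AlgebraicIndependent F c) (hXB : AlgebraicIndependent k XB)
    (hbs : AlgebraicIndependent F bs)
    (hcl : ∀ w : L, w ∈ (AlgebraicIndependent.matroid F L).closure (Set.range bs)) :
    ∃ φ : L →+* Ω, (∀ b, φ (bs (Sum.inl b)) = XB b) ∧
      ∀ a, φ (bs (Sum.inr a)) = algebraMap k Ω (c a) := by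
  let _ : Algebra F Ω := ((algebraMap k Ω).comp (algebraMap F k)).toAlgebra
  have : IsScalarTower F k Ω := IsScalarTower.of_algebraMap_eq fun _ => rfl
  have hb' : AlgebraicIndependent F (Sum.elim XB (algebraMap k Ω ∘ c)) :=
    AlgebraicIndependent.sumElim_comp hc hXB
  obtain ⟨φ, hφ⟩ := exists_lift F L Ω (B ⊕ A) _ _ hbs hb' hcl
  exact ⟨φ, fun b => hφ (Sum.inl b), fun a => hφ (Sum.inr a)⟩

end Pool.Agent.H6.CI
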