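import Pool.Agent.H17.CI.TargetsX
import Pool.Agent.H6.CI.GPT2

/-!
# A generic point of the variety
-/

set_option autoImplicit false

namespace Pool.Agent.H6.CI

open MvPolynomial SC Pool.Agent.H27.LV Pool.Agent.H17.VG Pool.Agent.H17.CI

section Setup

variable {n : ℕ} {ι : Type} (e : ι → ℕ)

/-- the monomial `X 0 ^ (e i + 1)` -/
def M0 (i : ι) : Mon (n + 1) (e i + 1) :=
  ⟨fun j => if j = 0 then e i + 1 else 0, by simp⟩

/-- the monomial `X 0 ^ e i * X a` -/
def M1 (i : ι) (a : Fin n) : Mon (n + 1) (e i + 1) :=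
  ⟨fun j => if j = 0 then e i else if j = a.succ then 1 else 0, by
    rw [Fin.sum_univ_succ]
    simp [Fin.succ_ne_zero, Fin.succ_inj]⟩

theorem M1_ne (i : ι) (a : Fin n) : M1 e i a ≠ M0 e i := by
  intro h
  have h1 := congrFun (congrArg Subtype.val h) a.succ
  simp [M1, M0, Fin.succ_ne_zero] at h1

variable {L : Type} [Field L]

theorem mv_M0 (i : ι) (x : Fin n → L) :
    mv (e i + 1) (Fin.cons 1 x : Fin (n + 1) → L) (M0 e i) = 1 := by
  unfold mv M0
  rw [Fin.prod_univ_succ]
  simp [Fin.succ_ne_zero]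

theorem mv_M1 (i : ι) (a : Fin n) (x : Fin n → L) :
    mv (e i + 1) (Fin.cons 1 x : Fin (n + 1) → L) (M1 e i a) = x a := by
  unfold mv M1
  rw [Fin.prod_univ_succ]
  simp [Fin.succ_ne_zero, Fin.succ_inj]

theorem map_mv {Ω : Type} [Field Ω] (φ : L →+* Ω) (d : ℕ) (x : Fin n → L) (f : Mon (n + 1) d) :
    φ (mv d (Fin.cons 1 x : Fin (n + 1) → L) f) =
      mv d (Fin.cons 1 (fun a => φ (x a)) : Fin (n + 1) → Ω) f := by
  unfold mv
  rw [map_prod]
  refine Finset.prod_congr rfl fun j _ => ?_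
  rw [map_pow]
  congr 1
  refine Fin.cases ?_ (fun a => ?_) j
  · simp
  · simp

end Setup

theorem eval_upT {k Ω : Type} [Field k] [Field Ω] [Algebra k Ω] {n : ℕ} {ι : Type} {e : ι → ℕ}
    (c : (Σ i, Mon (n + 1) (e i + 1)) → k) (x : Fin (n + 1) → Ω) (i : ι) :
    eval x (upT Ω (frmT c) i) = ∑ f, algebraMap k Ω (c ⟨i, f⟩) * mv (e i + 1) x f := by
  unfold upT up frmT frm
  rw [map_sum, map_sum]
  refine Finset.sum_congr rfl fun f _ => ?_
  rw [map_mul, map_mul, MvPolynomial.map_C, eval_C]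
  congr 1
  unfold mono
  rw [MvPolynomial.map_monomial, map_one]
  exact eval_mono x f.1

theorem gpt_gen (F k : Type) [Field F] [Field k] [Algebra F k] (n : ℕ) (ι : Type) [Fintype ι]
    (e : ι → ℕ) (Z : Finset ι) (c : (Σ i, Mon (n + 1) (e i + 1)) → k) (hZ : Z.card ≤ n)
    (hc : AlgebraicIndependent F c) : ∃ (Ω : Type) (_ : Field Ω) (_ : Algebra k Ω)
      (x : Fin (n + 1) → Ω) (B : Finset (Fin n)), x 0 = 1 ∧ B.card + Z.card = n ∧
      AlgebraicIndependent k (fun b : B => x b.1.succ) ∧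
      ∀ i ∈ Z, eval x (upT Ω (frmT c) i) = 0 := by
  classical
  let κ : Type := Σ i, Mon (n + 1) (e i + 1)
  let p : κ → Prop := fun M => M.1 ∈ Z ∧ M.2 = M0 e M.1
  let A : Type := {M : κ // ¬ p M}
  let V : Type := A ⊕ Fin n
  let L : Type := RF F V
  let v : V → L := vr F V
  let u : A → L := fun a => v (Sum.inl a)
  let x : Fin n → L := fun a => v (Sum.inr a)
  let v' : κ → L := fun M => if h : p M then 0 else u ⟨M, h⟩
  let y : ι → L := fun i => -∑ f : Mon (n + 1) (e i + 1),
    v' ⟨i, f⟩ * mv (e i + 1) (Fin.cons 1 x : Fin (n + 1) → L) f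
  let cs : κ → L := fun M => if p M then y M.1 else v' M
  have hux : (Sum.elim u x : V → L) = v := by
    funext b
    rcases b with b | b <;> rfl
  have hv : AlgebraicIndependent F v := vr_indep F V
  -- the shifts
  have hτ : ∀ i ∈ Z, ∀ a : Fin n, ∃ τ : L →ₐ[F] L,
      (∀ b : A, τ (u b) ∈ (AlgebraicIndependent.matroid F L).closure (Set.range u)) ∧
      (∀ i', i' ≠ i → τ (y i') = y i') ∧ τ (y i) = y i - x a := by
    intro i hi a
    have hp1 : ¬ p ⟨i, M1 e i a⟩ := fun h => M1_ne e i a h.2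
    obtain ⟨τ, hτ⟩ := exists_shift F V (Sum.inl ⟨⟨i, M1 e i a⟩, hp1⟩)
    have h1 : ∀ b : A, τ (u b) = u b + if b = ⟨⟨i, M1 e i a⟩, hp1⟩ then 1 else 0 := by
      intro b
      rw [show τ (u b) = _ from hτ (Sum.inl b)]
      by_cases hb : b = ⟨⟨i, M1 e i a⟩, hp1⟩
      · rw [if_pos hb, if_pos (congrArg Sum.inl hb)]
      · rw [if_neg hb, if_neg (fun h => hb (Sum.inl_injective h))]
    have h2 : ∀ b, τ (x b) = x b := by
      intro b
      rw [show τ (x b) = _ from hτ (Sum.inr b), if_neg (by simp), add_zero]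
    have h3 : ∀ M : κ, τ (v' M) = v' M + if M = ⟨i, M1 e i a⟩ then 1 else 0 := by
      intro M
      by_cases hM : p M
      · have hne : M ≠ ⟨i, M1 e i a⟩ := by
          rintro rfl
          exact hp1 hM
        simp only [v', dif_pos hM, map_zero, if_neg hne, add_zero]
      · simp only [v', dif_neg hM, h1]
        by_cases hM' : M = ⟨i, M1 e i a⟩
        · rw [if_pos hM', if_pos (Subtype.ext hM')]
        · rw [if_neg hM', if_neg (fun h => hM' (congrArg Subtype.val h))]
    have h4 : ∀ (d : ℕ) (f : Mon (n + 1) d), τ (mv d (Fin.cons 1 x : Fin (n + 1) → L) f) =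
        mv d (Fin.cons 1 x : Fin (n + 1) → L) f := by
      intro d f
      have h5 := map_mv (τ : L →+* L) d x f
      have h6 : (fun a => (τ : L →+* L) (x a)) = x := by
        funext b
        exact h2 b
      rw [h6] at h5
      exact h5
    have h5 : ∀ i', τ (y i') = y i' - ∑ f : Mon (n + 1) (e i' + 1),
        (if (⟨i', f⟩ : κ) = ⟨i, M1 e i a⟩ then 1 else 0) *
          mv (e i' + 1) (Fin.cons 1 x : Fin (n + 1) → L) f := by
      intro i'
      simp only [y]
      rw [map_neg, map_sum, ← neg_add', ← Finset.sum_add_distrib]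
      congr 1
      refine Finset.sum_congr rfl fun f _ => ?_
      rw [map_mul, h3, h4]
      ring
    refine ⟨τ, fun b => ?_, fun i' hi' => ?_, ?_⟩
    · rw [h1, mem_cl]
      refine (isAlgebraic_algebraMap
        (⟨u b, Algebra.subset_adjoin ⟨b, rfl⟩⟩ : Algebra.adjoin F (Set.range u))).add ?_
      split_ifs
      · exact isAlgebraic_one
      · exact isAlgebraic_zero
    · rw [h5, Finset.sum_eq_zero, sub_zero]
      intro f _
      rw [if_neg, zero_mul]
      intro h
      exact hi' (congrArg Sigma.fst h)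
    · rw [h5, Finset.sum_eq_single (M1 e i a)]
      · rw [if_pos rfl, one_mul, mv_M1]
      · intro f _ hf
        rw [if_neg, zero_mul]
        intro h
        exact hf (eq_of_heq (Sigma.mk.inj h).2)
      · intro h
        exact absurd (Finset.mem_univ _) h
  have hrk := rank_gen (F := F) (L := L) n u x y (by rw [hux]; exact hv) Z hZ hτ
  have hpZ : Nat.card {M : κ // p M} = Z.card := by
    rw [← Fintype.card_coe Z, ← Nat.card_eq_fintype_card]
    refine Nat.card_congr ⟨fun M => ⟨M.1.1, M.2.1⟩, fun i => ⟨⟨i.1, M0 e i.1⟩, i.2, rfl⟩, ?_, ?_⟩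
    · rintro ⟨⟨i, f⟩, h1, h2⟩
      have h3 : f = M0 e i := h2
      subst h3
      rfl
    · intro i
      rfl
  have hcard : Nat.card κ = Nat.card A + Z.card := by
    rw [← Nat.card_congr (Equiv.sumCompl p), Nat.card_sum, hpZ, add_comm]
  have hcsu : ∀ b : A, cs b.1 = u b := by
    intro b
    simp only [cs, if_neg b.2, v', dif_neg b.2]
    rfl
  have hcsy : ∀ i ∈ Z, cs ⟨i, M0 e i⟩ = y i := by
    intro i hi
    have : p ⟨i, M0 e i⟩ := ⟨hi, rfl⟩
    simp only [cs, if_pos this]
  have hcs : AlgebraicIndependent F cs := by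
    apply indep_of_rank
    rw [hcard, ← hrk]
    apply Matroid.eRk_mono
    rintro _ (⟨b, rfl⟩ | ⟨i, hi, rfl⟩)
    · exact ⟨b.1, hcsu b⟩
    · exact ⟨⟨i, M0 e i⟩, hcsy i hi⟩
  obtain ⟨B, hB, hBi, hBcl⟩ := exists_B (F := F) (L := L) (A := κ) (V := V) n Z.card cs x hcs v hv
    (vr_cl F V) (fun b => by
      rcases b with b | b
      · refine Matroid.mem_closure_of_mem' _ (Or.inl ⟨b.1, hcsu b⟩) (by simp)
      · exact Matroid.mem_closure_of_mem' _ (Or.inr ⟨b, rfl⟩) (by simp)) (by
      rw [hcard, Nat.card_sum, Nat.card_eq_fintype_card (α := Fin n), Fintype.card_fin]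
      ring)
  have hsum : ∀ i ∈ Z, ∑ f : Mon (n + 1) (e i + 1),
      cs ⟨i, f⟩ * mv (e i + 1) (Fin.cons 1 x : Fin (n + 1) → L) f = 0 := by
    intro i hi
    have h1 : ∀ f : Mon (n + 1) (e i + 1), cs ⟨i, f⟩ =
        v' ⟨i, f⟩ + if f = M0 e i then y i else 0 := by
      intro f
      by_cases hf : f = M0 e i
      · have hp : p ⟨i, f⟩ := ⟨hi, hf⟩
        simp only [cs, if_pos hp, v', dif_pos hp, if_pos hf, zero_add]
      · have hp : ¬ p ⟨i, f⟩ := fun h => hf h.2
        simp only [cs, if_neg hp, if_neg hf, add_zero]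
    simp only [h1, add_mul]
    rw [Finset.sum_add_distrib]
    have h2 : ∑ f : Mon (n + 1) (e i + 1), (if f = M0 e i then y i else 0) *
        mv (e i + 1) (Fin.cons 1 x : Fin (n + 1) → L) f = y i := by
      rw [Finset.sum_eq_single (M0 e i)]
      · rw [if_pos rfl, mv_M0, mul_one]
      · intro f _ hf
        rw [if_neg hf, zero_mul]
      · intro h
        exact absurd (Finset.mem_univ _) h
    rw [h2]
    simp only [y]
    exact add_neg_cancel _
  let K : Type := RF k B
  let Ω : Type := AlgebraicClosure K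
  let XB : B → Ω := fun b => algebraMap K Ω (vr k B b)
  have hXB : AlgebraicIndependent k XB := by
    refine (vr_indep k B).map' (f := IsScalarTower.toAlgHom k K Ω) ?_
    exact (algebraMap K Ω).injective
  obtain ⟨φ, hφ1, hφ2⟩ := exists_lift2 F k L Ω κ B c XB _ hc hXB hBi hBcl
  refine ⟨Ω, inferInstance, inferInstance, Fin.cons 1 (fun a => φ (x a)), B, rfl, hB, ?_, ?_⟩
  · have h1 : (fun b : B => (Fin.cons 1 (fun a => φ (x a)) : Fin (n + 1) → Ω) b.1.succ) = XB := by
      funext b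
      rw [Fin.cons_succ]
      exact hφ1 b
    rw [h1]
    exact hXB
  · intro i hi
    rw [eval_upT]
    have h1 := congrArg φ (hsum i hi)
    rw [map_sum, map_zero] at h1
    rw [← h1]
    refine Finset.sum_congr rfl fun f _ => ?_
    rw [map_mul, map_mv]
    congr 1
    exact (hφ2 ⟨i, f⟩).symm

theorem pf_GPT : T_GPT := by
  intro k _ _ n ι _ e Z c hZ hc
  exact gpt_gen ℚ k n ι e Z c hZ hc

end Pool.Agent.H6.CI
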