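import Mathlib

/-!
# Generic points: transcendence degrees without derivations
-/

set_option autoImplicit false

namespace Pool.Agent.H6.CI

open MvPolynomial

section General

variable {F L : Type} [Field F] [Field L] [Algebra F L]

theorem mem_cl {S : Set L} {z : L} :
    z ∈ (AlgebraicIndependent.matroid F L).closure S ↔ IsAlgebraic (Algebra.adjoin F S) z := by
  rw [AlgebraicIndependent.matroid_closure_eq]
  rfl

/-- shift: if a substitution `τ` preserves the closure of `S` and `τ z = z + w` for an element `z`
of the closure, then `w` is in the closure -/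
theorem cl_shift {S : Set L} {z w : L} (τ : L →ₐ[F] L)
    (hτ : ∀ s ∈ S, τ s ∈ (AlgebraicIndependent.matroid F L).closure S)
    (hz : z ∈ (AlgebraicIndependent.matroid F L).closure S) (hw : τ z = z + w) :
    w ∈ (AlgebraicIndependent.matroid F L).closure S := by
  have h1 : τ z ∈ (AlgebraicIndependent.matroid F L).closure (τ '' S) := by
    rw [mem_cl] at hz ⊢
    let f : Algebra.adjoin F S →ₐ[F] Algebra.adjoin F (τ '' S) :=
      (τ.comp (Subalgebra.val _)).codRestrict _ (fun x => by
        have h2 := AlgHom.map_adjoin τ S
        rw [← h2]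
        exact Subalgebra.mem_map.2 ⟨x.1, x.2, rfl⟩)
    refine hz.ringHom_of_comp_eq (f : Algebra.adjoin F S →+* Algebra.adjoin F (τ '' S))
      (τ : L →+* L) ?_ ?_
    · intro x y hxy
      apply Subtype.ext
      apply τ.toRingHom.injective
      exact congrArg Subtype.val hxy
    · rfl
  have h2 : (AlgebraicIndependent.matroid F L).closure (τ '' S) ⊆
      (AlgebraicIndependent.matroid F L).closure S := by
    apply Matroid.closure_subset_closure_of_subset_closure
    rintro _ ⟨s, hs, rfl⟩
    exact hτ s hs
  have h3 := h2 h1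
  rw [mem_cl] at h3 hz ⊢
  have h4 := h3.sub hz
  rwa [hw, add_sub_cancel_left] at h4

theorem indep_of_rank {A : Type} [Finite A] (f : A → L)
    (h : (Nat.card A : ℕ∞) ≤ (AlgebraicIndependent.matroid F L).eRk (Set.range f)) :
    AlgebraicIndependent F f := by
  have hfin : (Set.range f).Finite := Set.finite_range f
  have h1 := (AlgebraicIndependent.matroid F L).eRk_le_encard (Set.range f)
  have h2 : (f '' Set.univ).encard ≤ (Set.univ : Set A).encard := Set.encard_image_le _ _
  have h3 : (Set.univ : Set A).encard = (Nat.card A : ℕ∞) := by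
    rw [Set.encard_univ, ENat.card_eq_coe_natCard]
  rw [Set.image_univ, h3] at h2
  have hinj : Function.Injective f := by
    have h4 : Set.InjOn f Set.univ := Set.finite_univ.injOn_of_encard_image_eq (by
      rw [Set.image_univ, h3]
      exact le_antisymm h2 (h.trans h1))
    exact Set.injOn_univ.1 h4
  have h5 : (AlgebraicIndependent.matroid F L).Indep (Set.range f) := by
    rw [Matroid.indep_iff_eRk_eq_encard_of_finite hfin]
    exact le_antisymm h1 (h2.trans h)
  rw [AlgebraicIndependent.matroid_indep_iff] at h5
  exact (algebraicIndependent_subtype_range hinj).1 h5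

theorem rank_of_indep {A : Type} [Finite A] (f : A → L) (h : AlgebraicIndependent F f) :
    (AlgebraicIndependent.matroid F L).eRk (Set.range f) = (Nat.card A : ℕ∞) := by
  have h1 : (AlgebraicIndependent.matroid F L).Indep (Set.range f) := by
    rw [AlgebraicIndependent.matroid_indep_iff]
    exact (algebraicIndependent_subtype_range h.injective).2 h
  rw [h1.eRk_eq_encard, ← Set.image_univ, h.injective.encard_image, Set.encard_univ,
    ENat.card_eq_coe_natCard]

/-- the rank of a family `y` adjoined to a family of variables -/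
theorem rank_gen {A Z : Type} [Finite A] [Finite Z] (n : ℕ) (u : A → L) (x : Fin n → L)
    (y : Z → L) (hv : AlgebraicIndependent F (Sum.elim u x)) (J : Finset Z) (hJ : J.card ≤ n)
    (hτ : ∀ i ∈ J, ∀ a : Fin n, ∃ τ : L →ₐ[F] L,
      (∀ b : A, τ (u b) ∈ (AlgebraicIndependent.matroid F L).closure (Set.range u)) ∧
      (∀ i', i' ≠ i → τ (y i') = y i') ∧ τ (y i) = y i - x a) :
    (AlgebraicIndependent.matroid F L).eRk (Set.range u ∪ y '' (J : Set Z)) =
      ((Nat.card A + J.card : ℕ) : ℕ∞) := by
  classical
  set M := AlgebraicIndependent.matroid F L with hM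
  have hu : AlgebraicIndependent F u := by
    have := hv.comp Sum.inl Sum.inl_injective
    exact this
  induction J using Finset.induction_on with
  | empty =>
    rw [Finset.coe_empty, Set.image_empty, Set.union_empty, rank_of_indep u hu]
    simp
  | insert i J hi ih =>
    rw [Finset.card_insert_of_notMem hi] at hJ
    have ih' := ih (by omega) (fun i' hi' => hτ i' (Finset.mem_insert_of_mem hi'))
    have h1 : Set.range u ∪ y '' ((insert i J : Finset Z) : Set Z) =
        insert (y i) (Set.range u ∪ y '' (J : Set Z)) := by
      rw [Finset.coe_insert, Set.image_insert_eq, Set.union_insert]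
    rw [h1, Matroid.eRk_insert_eq_add_one, ih', Finset.card_insert_of_notMem hi]
    · push_cast
      ring
    · refine ⟨by simp [hM], fun hy => ?_⟩
      have hx : ∀ a, x a ∈ M.closure (Set.range u ∪ y '' (J : Set Z)) := by
        intro a
        obtain ⟨τ, h2, h3, h4⟩ := hτ i (Finset.mem_insert_self i J) a
        have h5 : -x a ∈ M.closure (Set.range u ∪ y '' (J : Set Z)) := by
          refine cl_shift τ ?_ hy (h4.trans (sub_eq_add_neg _ _))
          rintro s (⟨b, rfl⟩ | ⟨i', hi', rfl⟩)
          · exact M.closure_subset_closure Set.subset_union_left (h2 b)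
          · have hne : i' ≠ i := by
              rintro rfl
              exact hi hi'
            rw [h3 i' hne]
            exact M.mem_closure_of_mem' (Or.inr ⟨i', hi', rfl⟩) (by simp [hM])
        rw [mem_cl] at h5 ⊢
        have h6 := h5.neg
        rwa [neg_neg] at h6
      have h7 : Set.range (Sum.elim u x) ⊆ M.closure (Set.range u ∪ y '' (J : Set Z)) := by
        rintro _ ⟨b | a, rfl⟩
        · exact M.mem_closure_of_mem' (Or.inl ⟨b, rfl⟩) (by simp [hM])
        · exact hx a
      have h8 := M.eRk_mono h7
      rw [Matroid.eRk_closure_eq, rank_of_indep _ hv, ih', Nat.card_sum] at h8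
      have h9 : Nat.card A + Nat.card (Fin n) ≤ Nat.card A + J.card := by exact_mod_cast h8
      rw [Nat.card_eq_fintype_card (α := Fin n), Fintype.card_fin] at h9
      omega

/-- extension of an independent family `c` by some of the `x a` to a transcendence basis -/
theorem exists_B {A V : Type} [Finite A] [Finite V] (n z : ℕ) (c : A → L) (x : Fin n → L)
    (hc : AlgebraicIndependent F c) (v : V → L) (hv : AlgebraicIndependent F v)
    (hcl : ∀ w : L, w ∈ (AlgebraicIndependent.matroid F L).closure (Set.range v))
    (hvx : ∀ b, v b ∈ (AlgebraicIndependent.matroid F L).closure (Set.range c ∪ Set.range x))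
    (hcard : Nat.card V + z = Nat.card A + n) :
    ∃ B : Finset (Fin n), B.card + z = n ∧
      AlgebraicIndependent F (Sum.elim (fun b : B => x b.1) c) ∧
      ∀ w : L, w ∈ (AlgebraicIndependent.matroid F L).closure
        (Set.range (Sum.elim (fun b : B => x b.1) c)) := by
  classical
  set M := AlgebraicIndependent.matroid F L with hM
  have hr : ∀ B : Finset (Fin n), Set.range (Sum.elim (fun b : B => x b.1) c) =
      Set.range c ∪ x '' (B : Set (Fin n)) := by
    intro B
    rw [Set.Sum.elim_range, Set.union_comm]
    congr 1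
    ext w
    constructor
    · rintro ⟨b, rfl⟩
      exact ⟨b.1, b.2, rfl⟩
    · rintro ⟨b, hb, rfl⟩
      exact ⟨⟨b, hb⟩, rfl⟩
  let P : Finset (Finset (Fin n)) := Finset.univ.filter fun B =>
    ((Nat.card A + B.card : ℕ) : ℕ∞) ≤ M.eRk (Set.range c ∪ x '' (B : Set (Fin n)))
  have hP : P.Nonempty := by
    refine ⟨∅, ?_⟩
    rw [Finset.mem_filter]
    refine ⟨Finset.mem_univ _, ?_⟩
    rw [Finset.coe_empty, Set.image_empty, Set.union_empty, rank_of_indep c hc]
    simp
  obtain ⟨B, hB, hmax⟩ := Finset.exists_max_image P Finset.card hP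
  have hB' : ((Nat.card A + B.card : ℕ) : ℕ∞) ≤
      M.eRk (Set.range c ∪ x '' (B : Set (Fin n))) := (Finset.mem_filter.1 hB).2
  have hx : ∀ a, x a ∈ M.closure (Set.range c ∪ x '' (B : Set (Fin n))) := by
    intro a
    by_contra ha
    by_cases haB : a ∈ B
    · exact ha (M.mem_closure_of_mem' (Or.inr ⟨a, haB, rfl⟩) (by simp [hM]))
    · have h1 : insert a B ∈ P := by
        rw [Finset.mem_filter]
        refine ⟨Finset.mem_univ _, ?_⟩
        have h2 : Set.range c ∪ x '' ((insert a B : Finset (Fin n)) : Set (Fin n)) =
            insert (x a) (Set.range c ∪ x '' (B : Set (Fin n))) := by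
          rw [Finset.coe_insert, Set.image_insert_eq, Set.union_insert]
        rw [h2, Matroid.eRk_insert_eq_add_one ⟨by simp [hM], ha⟩,
          Finset.card_insert_of_notMem haB]
        have h3 := add_le_add_left hB' 1
        push_cast at h3 ⊢
        rw [← add_assoc]
        exact h3
      have h4 := hmax _ h1
      rw [Finset.card_insert_of_notMem haB] at h4
      omega
  have hall : ∀ w : L, w ∈ M.closure (Set.range c ∪ x '' (B : Set (Fin n))) := by
    intro w
    have h1 : Set.range c ∪ Set.range x ⊆ M.closure (Set.range c ∪ x '' (B : Set (Fin n))) := by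
      rintro _ (⟨b, rfl⟩ | ⟨a, rfl⟩)
      · exact M.mem_closure_of_mem' (Or.inl ⟨b, rfl⟩) (by simp [hM])
      · exact hx a
    have h2 : Set.range v ⊆ M.closure (Set.range c ∪ x '' (B : Set (Fin n))) := by
      rintro _ ⟨b, rfl⟩
      exact M.closure_subset_closure_of_subset_closure h1 (hvx b)
    exact M.closure_subset_closure_of_subset_closure h2 (hcl w)
  have hrank : M.eRk (Set.range c ∪ x '' (B : Set (Fin n))) = (Nat.card V : ℕ∞) := by
    rw [← rank_of_indep v hv]
    apply le_antisymm
    · rw [← M.eRk_closure_eq (Set.range v)]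
      exact M.eRk_mono fun w _ => hcl w
    · rw [← M.eRk_closure_eq (Set.range c ∪ x '' (B : Set (Fin n)))]
      exact M.eRk_mono fun w _ => hall w
  have hle : M.eRk (Set.range c ∪ x '' (B : Set (Fin n))) ≤ ((Nat.card A + B.card : ℕ) : ℕ∞) := by
    refine (M.eRk_union_le_eRk_add_eRk _ _).trans ?_
    rw [rank_of_indep c hc]
    push_cast
    refine add_le_add le_rfl ((M.eRk_le_encard _).trans ?_)
    refine (Set.encard_image_le _ _).trans ?_
    rw [Set.encard_coe_eq_coe_finsetCard]
  have hcB : Nat.card A + B.card = Nat.card V := by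
    have h1 := le_antisymm hB' hle
    rw [hrank] at h1
    exact_mod_cast h1
  refine ⟨B, by omega, ?_, ?_⟩
  · apply indep_of_rank
    rw [hr B, Nat.card_sum, Nat.card_eq_fintype_card (α := B), Fintype.card_coe, add_comm B.card]
    exact hB'
  · intro w
    rw [hr B]
    exact hall w

end General

end Pool.Agent.H6.CI
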